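import Mathlib

set_option autoImplicit false

namespace Pool.Agent.V1162.MM

/-- `B` is a `(v, k, 2)` covering design with `d` blocks: every block has exactly `k` elements and
every pair of distinct elements lies in a block. -/
def IsCovering {d v : ℕ} (k : ℕ) (B : Fin d → Finset (Fin v)) : Prop :=
  (∀ i, (B i).card = k) ∧ ∀ x y : Fin v, x ≠ y → ∃ i, x ∈ B i ∧ y ∈ B i

/-- The scaled version of `B` (blocks `B i × [d]` on the ground set `[v] × [d]`) admits a
multi-matching: sets `U i ⊆ B i × [d]` with exactly `v` elements which partition `[v] × [d]`. -/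
def ScaledMultiMatching {d v : ℕ} (B : Fin d → Finset (Fin v)) : Prop :=
  ∃ U : Fin d → Finset (Fin v × Fin d), (∀ i, U i ⊆ B i ×ˢ Finset.univ) ∧
    (∀ i, (U i).card = v) ∧ (∀ i j, i ≠ j → Disjoint (U i) (U j)) ∧ ∀ z, ∃ i, z ∈ U i

/-- The frequency `k d / v`. -/
noncomputable def freq (d v k : ℕ) : ℝ := (k : ℝ) * d / v

/-- The statement of Q1 for the number `d` of blocks. -/
def Good (d : ℕ) : Prop :=
  ∃ β : ℝ, 0 < β ∧
    (∃ (v k : ℕ) (B : Fin d → Finset (Fin v)), 2 ≤ v ∧ 2 ≤ k ∧ IsCovering k B ∧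
      freq d v k ≤ β) ∧
    ∀ (v k : ℕ) (B : Fin d → Finset (Fin v)), 2 ≤ v → 2 ≤ k → IsCovering k B →
      freq d v k ≤ β → ScaledMultiMatching B

variable {d v k : ℕ}

/-- the blocks meeting `X` -/
def nb (B : Fin d → Finset (Fin v)) (X : Finset (Fin v)) : Finset (Fin d) :=
  Finset.univ.filter (fun i => ∃ x ∈ X, x ∈ B i)

lemma deg_bound (B : Fin d → Finset (Fin v)) (hB : ∀ i, (B i).card = k) (X : Finset (Fin v))
    (y : Fin v) (Z : Finset (Fin v)) (h : ∀ z ∈ Z, ∃ i ∈ nb B X, y ∈ B i ∧ z ∈ B i) :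
    Z.card ≤ k * ((nb B X).filter (fun i => y ∈ B i)).card := by
  have h1 : Z ⊆ ((nb B X).filter (fun i => y ∈ B i)).biUnion B := by
    intro z hz
    obtain ⟨i, hi, hy, hz'⟩ := h z hz
    exact Finset.mem_biUnion.2 ⟨i, Finset.mem_filter.2 ⟨hi, hy⟩, hz'⟩
  refine (Finset.card_le_card h1).trans (Finset.card_biUnion_le.trans ?_)
  rw [Finset.sum_congr rfl (fun i _ => hB i), Finset.sum_const, smul_eq_mul, mul_comm]

lemma hall (B : Fin d → Finset (Fin v)) (hv : 2 ≤ v) (hk : 2 ≤ k) (hB : IsCovering k B)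
    (h : k ^ 2 * d ≤ v ^ 2 + k * v) (X : Finset (Fin v)) : d * X.card ≤ v * (nb B X).card := by
  by_contra hcon
  push Not at hcon
  have hn : 0 < X.card := by
    rcases Nat.eq_zero_or_pos X.card with h0 | h0
    · rw [h0] at hcon; simp at hcon
    · exact h0
  have hXv : X.card ≤ v := by
    simpa using Finset.card_le_univ X
  -- a block missing `X`
  have h1 : ∃ i0, i0 ∉ nb B X := by
    by_contra hne
    push Not at hne
    have : nb B X = Finset.univ := Finset.eq_univ_of_forall hne
    rw [this, Finset.card_univ, Fintype.card_fin] at hcon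
    nlinarith
  obtain ⟨i0, hi0⟩ := h1
  have h2 : k + X.card ≤ v := by
    have hd : Disjoint (B i0) X := by
      rw [Finset.disjoint_left]
      intro a ha hx
      exact hi0 (Finset.mem_filter.2 ⟨Finset.mem_univ _, a, hx, ha⟩)
    have := Finset.card_le_univ (B i0 ∪ X)
    rw [Finset.card_union_of_disjoint hd, hB.1, Fintype.card_fin] at this
    exact this
  -- every element is in a common block with every element
  have h3 : ∀ x y : Fin v, ∃ i, x ∈ B i ∧ y ∈ B i := by
    intro x y
    by_cases hxy : x = y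
    · subst hxy
      have : ∃ z : Fin v, z ≠ x := by
        have : Nontrivial (Fin v) := Fin.nontrivial_iff_two_le.2 hv
        exact exists_ne x
      obtain ⟨z, hz⟩ := this
      obtain ⟨i, hi, -⟩ := hB.2 x z hz.symm
      exact ⟨i, hi, hi⟩
    · exact hB.2 x y hxy
  have h4 : ∀ x ∈ X, v ≤ k * ((nb B X).filter (fun i => x ∈ B i)).card := by
    intro x hx
    have := deg_bound B hB.1 X x Finset.univ (by
      intro z _
      obtain ⟨i, hi, hz⟩ := h3 x z
      exact ⟨i, Finset.mem_filter.2 ⟨Finset.mem_univ _, x, hx, hi⟩, hi, hz⟩)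
    simpa using this
  have h5 : ∀ y, X.card ≤ k * ((nb B X).filter (fun i => y ∈ B i)).card := by
    intro y
    refine deg_bound B hB.1 X y X ?_
    intro z hz
    obtain ⟨i, hi, hz'⟩ := h3 y z
    exact ⟨i, Finset.mem_filter.2 ⟨Finset.mem_univ _, z, hz, hz'⟩, hi, hz'⟩
  -- double counting
  have h6 : ∑ y : Fin v, ((nb B X).filter (fun i => y ∈ B i)).card = k * (nb B X).card := by
    have : ∀ y : Fin v, ((nb B X).filter (fun i => y ∈ B i)).card
        = ∑ i ∈ nb B X, if y ∈ B i then 1 else 0 := by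
      intro y
      rw [Finset.card_filter]
    rw [Finset.sum_congr rfl (fun y _ => this y), Finset.sum_comm]
    have h7 : ∀ i ∈ nb B X, (∑ y : Fin v, if y ∈ B i then 1 else 0) = k := by
      intro i _
      rw [← Finset.card_filter]
      simp [hB.1 i]
    rw [Finset.sum_congr rfl h7, Finset.sum_const, smul_eq_mul, mul_comm]
  obtain ⟨m, hm⟩ : ∃ m, v = X.card + m := ⟨v - X.card, by omega⟩
  have h8 : X.card * v + m * X.card ≤ k * (k * (nb B X).card) := by
    rw [← h6, Finset.mul_sum, ← Finset.sum_add_sum_compl X]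
    refine add_le_add ?_ ?_
    · calc X.card * v = ∑ y ∈ X, v := by rw [Finset.sum_const, smul_eq_mul]
        _ ≤ _ := Finset.sum_le_sum h4
    · calc m * X.card = ∑ y ∈ Xᶜ, X.card := by
            rw [Finset.sum_const, smul_eq_mul, Finset.card_compl, Fintype.card_fin]
            congr 1
            omega
        _ ≤ _ := Finset.sum_le_sum (fun y _ => h5 y)
  have h9 : k ≤ m := by omega
  have hkp : 0 < k := by omega
  have h10 : X.card * (v * (v + m)) < X.card * (k ^ 2 * d) := by
    calc X.card * (v * (v + m)) = v * (X.card * v + m * X.card) := by ring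
      _ ≤ v * (k * (k * (nb B X).card)) := Nat.mul_le_mul_left _ h8
      _ = k ^ 2 * (v * (nb B X).card) := by ring
      _ < k ^ 2 * (d * X.card) := Nat.mul_lt_mul_of_pos_left hcon (by positivity)
      _ = X.card * (k ^ 2 * d) := by ring
  have h11 : v * (v + m) < k ^ 2 * d := lt_of_mul_lt_mul_left h10 (Nat.zero_le _)
  have h12 : v * (v + m) < v * (v + k) := by
    calc v * (v + m) < k ^ 2 * d := h11
      _ ≤ v ^ 2 + k * v := h
      _ = v * (v + k) := by ring
  have h13 : v + m < v + k := lt_of_mul_lt_mul_left h12 (Nat.zero_le _)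
  omega

lemma criterion (B : Fin d → Finset (Fin v)) (hv : 2 ≤ v) (hk : 2 ≤ k) (hB : IsCovering k B)
    (h : k ^ 2 * d ≤ v ^ 2 + k * v) : ScaledMultiMatching B := by
  classical
  let t : Fin v × Fin d → Finset (Fin d × Fin v) := fun z =>
    (Finset.univ.filter (fun i => z.1 ∈ B i)) ×ˢ Finset.univ
  have h1 : ∀ s : Finset (Fin v × Fin d), s.card ≤ (s.biUnion t).card := by
    intro s
    have h2 : s.biUnion t = nb B (s.image Prod.fst) ×ˢ Finset.univ := by
      ext w
      simp only [t, nb, Finset.mem_biUnion, Finset.mem_product, Finset.mem_filter,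
        Finset.mem_univ, true_and, and_true, Finset.mem_image]
      constructor
      · rintro ⟨z, hz, hw⟩
        exact ⟨z.1, ⟨z, hz, rfl⟩, hw⟩
      · rintro ⟨x, ⟨z, hz, rfl⟩, hw⟩
        exact ⟨z, hz, hw⟩
    have h3 : s ⊆ (s.image Prod.fst) ×ˢ (Finset.univ : Finset (Fin d)) := by
      intro z hz
      simp only [Finset.mem_product, Finset.mem_univ, and_true]
      exact Finset.mem_image_of_mem _ hz
    have h4 := Finset.card_le_card h3
    rw [Finset.card_product, Finset.card_univ, Fintype.card_fin] at h4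
    rw [h2, Finset.card_product, Finset.card_univ, Fintype.card_fin]
    have h5 := hall B hv hk hB h (s.image Prod.fst)
    calc s.card ≤ (s.image Prod.fst).card * d := h4
      _ = d * (s.image Prod.fst).card := mul_comm _ _
      _ ≤ v * (nb B (s.image Prod.fst)).card := h5
      _ = _ := mul_comm _ _
  obtain ⟨f, hf, hft⟩ := (Finset.all_card_le_biUnion_card_iff_exists_injective t).1 h1
  have hbij : Function.Bijective f := by
    rw [Fintype.bijective_iff_injective_and_card]
    exact ⟨hf, by simp [mul_comm]⟩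
  refine ⟨fun i => Finset.univ.filter (fun z => (f z).1 = i), ?_, ?_, ?_, ?_⟩
  · intro i z hz
    have h2 := (Finset.mem_filter.1 hz).2
    have h3 := hft z
    simp only [t, Finset.mem_product, Finset.mem_filter, Finset.mem_univ, true_and,
      and_true] at h3
    simp only [Finset.mem_product, Finset.mem_univ, and_true]
    rw [← h2]; exact h3
  · intro i
    have h2 : (Finset.univ.filter (fun z => (f z).1 = i)).image f = {i} ×ˢ Finset.univ := by
      ext w
      simp only [Finset.mem_image, Finset.mem_filter, Finset.mem_univ, true_and,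
        Finset.mem_product, Finset.mem_singleton, and_true]
      constructor
      · rintro ⟨z, hz, rfl⟩; exact hz
      · intro hw
        obtain ⟨z, rfl⟩ := hbij.2 w
        exact ⟨z, hw, rfl⟩
    rw [← Finset.card_image_of_injective _ hf, h2]
    simp
  · intro i j hij
    rw [Finset.disjoint_left]
    intro z hz hz'
    exact hij ((Finset.mem_filter.1 hz).2.symm.trans (Finset.mem_filter.1 hz').2)
  · intro z
    exact ⟨(f z).1, Finset.mem_filter.2 ⟨Finset.mem_univ _, rfl⟩⟩

/-- frequency at most `(1 + √(1+4d))/2` means `k² d ≤ v² + k v` -/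
lemma freq_iff (hd : 0 < d) (hv : 0 < v) :
    freq d v k ≤ (1 + √(1 + 4 * (d : ℝ))) / 2 ↔ k ^ 2 * d ≤ v ^ 2 + k * v := by
  have hd' : (0 : ℝ) < d := by exact_mod_cast hd
  have hv' : (0 : ℝ) < v := by exact_mod_cast hv
  have hs : √(1 + 4 * (d : ℝ)) ^ 2 = 1 + 4 * (d : ℝ) := Real.sq_sqrt (by positivity)
  have hs1 : 1 ≤ √(1 + 4 * (d : ℝ)) := by
    rw [Real.one_le_sqrt]; linarith
  set s := √(1 + 4 * (d : ℝ)) with hsdef
  have hf0 : 0 ≤ freq d v k := by unfold freq; positivity
  have hfv : freq d v k * v = k * d := by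
    unfold freq; field_simp
  set f := freq d v k with hfdef
  have e1 : f ≤ (1 + s) / 2 ↔ f ^ 2 - f ≤ d := by
    constructor
    · intro h
      nlinarith
    · intro h
      by_contra hc
      push Not at hc
      nlinarith
  have e2 : f ^ 2 - f ≤ d ↔ ((k : ℝ) ^ 2 * d ≤ v ^ 2 + k * v) := by
    have e3 : (f ^ 2 - f) * v ^ 2 = d * ((k : ℝ) ^ 2 * d - k * v) := by
      have : (f ^ 2 - f) * v ^ 2 = (f * v) ^ 2 - (f * v) * v := by ring
      rw [this, hfv]; ring
    constructor
    · intro h
      have h1 : (f ^ 2 - f) * v ^ 2 ≤ d * v ^ 2 := mul_le_mul_of_nonneg_right h (by positivity)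
      rw [e3] at h1
      have := le_of_mul_le_mul_left h1 hd'
      linarith
    · intro h
      have h1 : (d : ℝ) * ((k : ℝ) ^ 2 * d - k * v) ≤ d * v ^ 2 :=
        mul_le_mul_of_nonneg_left (by linarith) hd'.le
      rw [← e3] at h1
      exact le_of_mul_le_mul_right h1 (by positivity)
  rw [e1, e2]
  exact_mod_cast Iff.rfl

lemma good_of (hd : 0 < d) (B : Fin d → Finset (Fin v)) (hv : 2 ≤ v) (hk : 2 ≤ k)
    (hB : IsCovering k B) (h : k ^ 2 * d ≤ v ^ 2 + k * v) : Good d := by
  refine ⟨(1 + √(1 + 4 * (d : ℝ))) / 2, by positivity, ⟨v, k, B, hv, hk, hB, ?_⟩, ?_⟩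
  · exact (freq_iff hd (by omega)).2 h
  · intro v' k' B' hv' hk' hB' hf
    exact criterion B' hv' hk' hB' ((freq_iff hd (by omega)).1 hf)

/-- transport to `Fin` -/
lemma transport {α ι : Type} [Fintype α] [Fintype ι] [DecidableEq α] (k d v : ℕ)
    (hd : Fintype.card ι = d) (hv : Fintype.card α = v) (B : ι → Finset α)
    (h1 : ∀ i, (B i).card = k) (h2 : ∀ x y, x ≠ y → ∃ i, x ∈ B i ∧ y ∈ B i) :
    ∃ B' : Fin d → Finset (Fin v), IsCovering k B' := by
  have e : ι ≃ Fin d := Fintype.equivFinOfCardEq hd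
  have g : α ≃ Fin v := Fintype.equivFinOfCardEq hv
  refine ⟨fun i => (B (e.symm i)).map g.toEmbedding, fun i => by simp [h1], ?_⟩
  intro x y hxy
  obtain ⟨i, hi, hj⟩ := h2 (g.symm x) (g.symm y) (fun h => hxy (g.symm.injective h))
  exact ⟨e i, by simpa [Finset.mem_map_equiv] using hi, by simpa [Finset.mem_map_equiv] using hj⟩

section planes

variable (F : Type) [Field F] [Fintype F] [DecidableEq F]

/-- lines of the affine plane -/
def agLine : (F × F) ⊕ F → Finset (F × F)
  | Sum.inl (m, b) => Finset.univ.image (fun x => (x, m * x + b))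
  | Sum.inr c => Finset.univ.image (fun y => (c, y))

lemma agLine_card (l : (F × F) ⊕ F) : (agLine F l).card = Fintype.card F := by
  rcases l with ⟨m, b⟩ | c
  · exact (Finset.card_image_of_injective _ (fun x y h => (Prod.ext_iff.1 h).1)).trans
      Finset.card_univ
  · exact (Finset.card_image_of_injective _ (fun x y h => (Prod.ext_iff.1 h).2)).trans
      Finset.card_univ

lemma agLine_cover (p q : F × F) (h : p ≠ q) : ∃ l, p ∈ agLine F l ∧ q ∈ agLine F l := by
  obtain ⟨x, y⟩ := p
  obtain ⟨x', y'⟩ := q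
  by_cases hx : x = x'
  · subst hx
    exact ⟨Sum.inr x, by simp [agLine], by simp [agLine]⟩
  · have hne : x - x' ≠ 0 := sub_ne_zero.2 hx
    refine ⟨Sum.inl ((y - y') / (x - x'), y - (y - y') / (x - x') * x), ?_, ?_⟩
    · simp [agLine]
    · simp only [agLine, Finset.mem_image, Finset.mem_univ, true_and, Prod.mk.injEq]
      refine ⟨x', rfl, ?_⟩
      field_simp
      ring

/-- lines of the projective plane -/
def pgLine : (F × F) ⊕ Option F → Finset ((F × F) ⊕ Option F)
  | Sum.inl (m, b) => Finset.univ.image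
      (fun t : Option F => t.elim (Sum.inr (some m)) (fun x => Sum.inl (x, m * x + b)))
  | Sum.inr (some c) => Finset.univ.image
      (fun t : Option F => t.elim (Sum.inr none) (fun y => Sum.inl (c, y)))
  | Sum.inr none => Finset.univ.image (fun t : Option F => Sum.inr t)

lemma pgLine_card (l : (F × F) ⊕ Option F) : (pgLine F l).card = Fintype.card F + 1 := by
  have hc : (Finset.univ : Finset (Option F)).card = Fintype.card F + 1 := by simp
  rcases l with ⟨m, b⟩ | (_ | c)
  · refine (Finset.card_image_of_injective _ ?_).trans hc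
    rintro (_ | x) (_ | y) h <;> simp_all
  · refine (Finset.card_image_of_injective _ ?_).trans hc
    rintro x y h; simpa using h
  · refine (Finset.card_image_of_injective _ ?_).trans hc
    rintro (_ | x) (_ | y) h <;> simp_all

lemma pg_mem_inl (m b x : F) : (Sum.inl (x, m * x + b) : (F × F) ⊕ Option F) ∈
    pgLine F (Sum.inl (m, b)) :=
  Finset.mem_image.2 ⟨some x, Finset.mem_univ _, rfl⟩

lemma pg_mem_inf (m b : F) : (Sum.inr (some m) : (F × F) ⊕ Option F) ∈
    pgLine F (Sum.inl (m, b)) :=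
  Finset.mem_image.2 ⟨none, Finset.mem_univ _, rfl⟩

lemma pg_mem_ver (c y : F) : (Sum.inl (c, y) : (F × F) ⊕ Option F) ∈
    pgLine F (Sum.inr (some c)) :=
  Finset.mem_image.2 ⟨some y, Finset.mem_univ _, rfl⟩

lemma pg_mem_none (c : F) : (Sum.inr none : (F × F) ⊕ Option F) ∈
    pgLine F (Sum.inr (some c)) :=
  Finset.mem_image.2 ⟨none, Finset.mem_univ _, rfl⟩

lemma pg_mem_line (t : Option F) : (Sum.inr t : (F × F) ⊕ Option F) ∈
    pgLine F (Sum.inr none) :=
  Finset.mem_image.2 ⟨t, Finset.mem_univ _, rfl⟩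

lemma pg_aux (x y : F) (t : Option F) : ∃ l, (Sum.inl (x, y) : (F × F) ⊕ Option F) ∈ pgLine F l ∧
    (Sum.inr t : (F × F) ⊕ Option F) ∈ pgLine F l := by
  rcases t with _ | m
  · exact ⟨Sum.inr (some x), pg_mem_ver F x y, pg_mem_none F x⟩
  · refine ⟨Sum.inl (m, y - m * x), ?_, pg_mem_inf F m _⟩
    have := pg_mem_inl F m (y - m * x) x
    rwa [add_sub_cancel] at this

lemma pgLine_cover (p q : (F × F) ⊕ Option F) (h : p ≠ q) :
    ∃ l, p ∈ pgLine F l ∧ q ∈ pgLine F l := by
  rcases p with ⟨x, y⟩ | t <;> rcases q with ⟨x', y'⟩ | t'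
  · by_cases hx : x = x'
    · subst hx
      exact ⟨Sum.inr (some x), pg_mem_ver F x y, pg_mem_ver F x y'⟩
    · have hne : x - x' ≠ 0 := sub_ne_zero.2 hx
      refine ⟨Sum.inl ((y - y') / (x - x'), y - (y - y') / (x - x') * x), ?_, ?_⟩
      · have := pg_mem_inl F ((y - y') / (x - x')) (y - (y - y') / (x - x') * x) x
        rwa [add_sub_cancel] at this
      · have := pg_mem_inl F ((y - y') / (x - x')) (y - (y - y') / (x - x') * x) x'
        have e : (y - y') / (x - x') * x' + (y - (y - y') / (x - x') * x) = y' := by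
          field_simp
          ring
        rwa [e] at this
  · exact pg_aux F x y t'
  · obtain ⟨l, h1, h2⟩ := pg_aux F x' y' t
    exact ⟨l, h2, h1⟩
  · exact ⟨Sum.inr none, pg_mem_line F t, pg_mem_line F t'⟩

end planes

lemma good_planes (q : ℕ) (hq : IsPrimePow q) : Good (q ^ 2 + q) ∧ Good (q ^ 2 + q + 1) := by
  classical
  obtain ⟨p, n, hp, hn, rfl⟩ := hq
  have : Fact p.Prime := ⟨hp.nat_prime⟩
  let F := GaloisField p n
  have : Fintype F := Fintype.ofFinite F
  have hc : Fintype.card F = p ^ n := by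
    rw [← Nat.card_eq_fintype_card]; exact GaloisField.card p n hn.ne'
  have h2 : 2 ≤ p ^ n := by
    rw [← hc]; exact Fintype.one_lt_card
  set q := p ^ n with hqdef
  constructor
  · obtain ⟨B, hB⟩ := transport q (q ^ 2 + q) (q ^ 2) (by simp [hc]; ring) (by simp [hc]; ring)
      (agLine F) (fun l => (agLine_card F l).trans hc) (agLine_cover F)
    refine good_of (by positivity) B (by nlinarith) h2 hB ?_
    apply le_of_eq; ring
  · obtain ⟨B, hB⟩ := transport (q + 1) (q ^ 2 + q + 1) (q ^ 2 + q + 1) (by simp [hc]; ring)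
      (by simp [hc]; ring) (pgLine F) (fun l => by rw [pgLine_card F l, hc]) (pgLine_cover F)
    refine good_of (by positivity) B (by nlinarith) (by omega) hB ?_
    nlinarith

end Pool.Agent.V1162.MM
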