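import Pool.Agent.V1162.MM.Final

set_option autoImplicit false

namespace Pool.Agent.V1162.MM

variable {d v k : ℕ}

lemma le_choose (n r : ℕ) (h0 : 0 < r) (h1 : r < n) : n ≤ n.choose r := by
  induction n generalizing r with
  | zero => omega
  | succ n ih =>
    obtain ⟨r, rfl⟩ : ∃ s, r = s + 1 := ⟨r - 1, by omega⟩
    rw [Nat.choose_succ_succ]
    rcases Nat.lt_or_ge (r + 1) n with h | h
    · have := ih (r + 1) (by omega) h
      have h2 : 0 < n.choose r := Nat.choose_pos (by omega)
      simp only [Nat.succ_eq_add_one]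
      omega
    · have hr : r + 1 = n := by omega
      subst hr
      simp [Nat.choose_succ_self_right]

/-- repeated blocks can be replaced by new ones -/
lemma distinct_blocks (hdc : d ≤ v.choose k) {B0 : Fin d → Finset (Fin v)}
    (h0 : IsCovering k B0) :
    ∃ B : Fin d → Finset (Fin v), IsCovering k B ∧ Function.Injective B := by
  classical
  -- take a covering with the most different blocks
  obtain ⟨B, hB, hmax⟩ : ∃ B : Fin d → Finset (Fin v), IsCovering k B ∧
      ∀ B' : Fin d → Finset (Fin v), IsCovering k B' →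
        (Finset.univ.image B').card ≤ (Finset.univ.image B).card := by
    have hne : (Finset.univ.filter (fun B : Fin d → Finset (Fin v) => IsCovering k B)).Nonempty :=
      ⟨B0, by simp [h0]⟩
    obtain ⟨B, hB, h⟩ := Finset.exists_max_image _ (fun B => (Finset.univ.image B).card) hne
    exact ⟨B, (Finset.mem_filter.1 hB).2, fun B' hB' => h B' (by simp [hB'])⟩
  refine ⟨B, hB, ?_⟩
  intro i j hij
  by_contra hne
  have hlt : (Finset.univ.image B).card < d := by
    have h1 : (Finset.univ.image B) = (Finset.univ.erase j).image B := by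
      ext s
      simp only [Finset.mem_image, Finset.mem_univ, true_and, Finset.mem_erase]
      constructor
      · rintro ⟨a, rfl⟩
        by_cases ha : a = j
        · subst ha
          exact ⟨i, ⟨hne, trivial⟩, hij⟩
        · exact ⟨a, ⟨ha, trivial⟩, rfl⟩
      · rintro ⟨a, -, rfl⟩
        exact ⟨a, rfl⟩
    rw [h1]
    refine lt_of_le_of_lt Finset.card_image_le ?_
    rw [Finset.card_erase_of_mem (Finset.mem_univ _), Finset.card_univ, Fintype.card_fin]
    have := j.pos
    omega
  obtain ⟨S, hS, hSn⟩ : ∃ S ∈ (Finset.univ : Finset (Fin v)).powersetCard k,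
      S ∉ Finset.univ.image B := by
    apply Finset.exists_mem_notMem_of_card_lt_card
    rw [Finset.card_powersetCard, Finset.card_univ, Fintype.card_fin]
    omega
  have hSk : S.card = k := (Finset.mem_powersetCard.1 hS).2
  have hB' : IsCovering k (Function.update B j S) := by
    refine ⟨?_, ?_⟩
    · intro a
      by_cases ha : a = j
      · subst ha; simp [hSk]
      · rw [Function.update_of_ne ha]; exact hB.1 a
    · intro x y hxy
      obtain ⟨a, hx, hy⟩ := hB.2 x y hxy
      by_cases ha : a = j
      · subst ha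
        refine ⟨i, ?_, ?_⟩
        · rw [Function.update_of_ne hne, hij]; exact hx
        · rw [Function.update_of_ne hne, hij]; exact hy
      · refine ⟨a, ?_, ?_⟩
        · rw [Function.update_of_ne ha]; exact hx
        · rw [Function.update_of_ne ha]; exact hy
  have h2 := hmax _ hB'
  have h3 : insert S (Finset.univ.image B) ⊆ Finset.univ.image (Function.update B j S) := by
    intro s hs
    rw [Finset.mem_insert] at hs
    rcases hs with rfl | hs
    · exact Finset.mem_image.2 ⟨j, Finset.mem_univ _, by simp⟩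
    · obtain ⟨a, -, rfl⟩ := Finset.mem_image.1 hs
      by_cases ha : a = j
      · subst ha
        exact Finset.mem_image.2 ⟨i, Finset.mem_univ _, by
          rw [Function.update_of_ne hne, hij]⟩
      · exact Finset.mem_image.2 ⟨a, Finset.mem_univ _, by rw [Function.update_of_ne ha]⟩
  have h4 := Finset.card_le_card h3
  rw [Finset.card_insert_of_notMem hSn] at h4
  omega

/-- scaling by `N` -/
lemma scale (N : ℕ) {B0 : Fin d → Finset (Fin v)} (hv : 2 ≤ v)
    (h0 : IsCovering k B0) :
    ∃ B : Fin d → Finset (Fin (v * N)), IsCovering (k * N) B := by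
  refine transport (α := Fin v × Fin N) (ι := Fin d) (k * N) d (v * N) (by simp) (by simp)
    (fun i => B0 i ×ˢ Finset.univ) ?_ ?_
  · intro i
    simp [Finset.card_product, h0.1 i]
  · intro x y _
    obtain ⟨i, h1, h2⟩ := common B0 hv h0 x.1 y.1
    exact ⟨i, by simp [h1], by simp [h2]⟩

/-- a design of small frequency can be chosen with different blocks -/
lemma distinct_of (hd : 3 ≤ d) {β : ℝ} (h : ∃ (v k : ℕ) (B : Fin d → Finset (Fin v)), 2 ≤ v ∧
    2 ≤ k ∧ IsCovering k B ∧ freq d v k ≤ β) :
    ∃ (v k : ℕ) (B : Fin d → Finset (Fin v)), 2 ≤ v ∧ 2 ≤ k ∧ IsCovering k B ∧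
      Function.Injective B ∧ freq d v k ≤ β := by
  -- a design with `k < v`
  obtain ⟨v, k, B, hv, hk, hB, hf, hkv⟩ : ∃ (v k : ℕ) (B : Fin d → Finset (Fin v)), 2 ≤ v ∧
      2 ≤ k ∧ IsCovering k B ∧ freq d v k ≤ β ∧ k < v := by
    obtain ⟨v, k, B, hv, hk, hB, hf⟩ := h
    have hkv : k ≤ v := by
      have := Finset.card_le_univ (B ⟨0, by omega⟩)
      rwa [hB.1, Fintype.card_fin] at this
    rcases Nat.lt_or_ge k v with hlt | hge
    · exact ⟨v, k, B, hv, hk, hB, hf, hlt⟩
    · have hkv' : k = v := le_antisymm hkv hge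
      subst hkv'
      obtain ⟨B1, hB1⟩ := pairs_design 3
      obtain ⟨B2, hB2⟩ := more_blocks (d := d) (by decide)
        (show (3 : ℕ).choose 2 ≤ d by simpa [Nat.choose] using hd) hB1
      refine ⟨3, 2, B2, by norm_num, le_rfl, hB2, le_trans ?_ hf, by norm_num⟩
      unfold freq
      have hk0 : (0 : ℝ) < k := by exact_mod_cast (by omega : 0 < k)
      have hd0 : (0 : ℝ) < d := by exact_mod_cast (by omega : 0 < d)
      have : (k : ℝ) * d / k = d := by field_simp
      rw [this]
      push_cast
      linarith
  obtain ⟨B1, hB1⟩ := scale d hv hB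
  have hdpos : 0 < d := by omega
  have hc : d ≤ (v * d).choose (k * d) := by
    refine le_trans ?_ (le_choose (v * d) (k * d) (by positivity)
      (Nat.mul_lt_mul_of_pos_right hkv hdpos))
    nlinarith
  obtain ⟨B2, hB2, hinj⟩ := distinct_blocks hc hB1
  refine ⟨v * d, k * d, B2, by nlinarith, by nlinarith, hB2, hinj, le_trans (le_of_eq ?_) hf⟩
  unfold freq
  have hv0 : (0 : ℝ) < v := by exact_mod_cast (by omega : 0 < v)
  have hd0 : (0 : ℝ) < d := by exact_mod_cast hdpos
  push_cast
  field_simp

end Pool.Agent.V1162.MM
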