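import Pool.Agent.V1162.MM.Impr

set_option autoImplicit false

namespace Pool.Agent.V1162.MM

variable {d v k : ℕ}

lemma mm_of_hall (B : Fin d → Finset (Fin v))
    (hall : ∀ X : Finset (Fin v), d * X.card ≤ v * (nb B X).card) : ScaledMultiMatching B := by
  classical
  let t : Fin v × Fin d → Finset (Fin d × Fin v) := fun z =>
    (Finset.univ.filter (fun i => z.1 ∈ B i)) ×ˢ Finset.univ
  have h1 : ∀ s : Finset (Fin v × Fin d), s.card ≤ (s.biUnion t).card := by
    intro s
    have h2 : s.biUnion t = nb B (s.image Prod.fst) ×ˢ Finset.univ := by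
      ext w
      simp only [t, nb, Finset.mem_biUnion, Finset.mem_product, Finset.mem_filter,
        Finset.mem_univ, true_and, and_true, Finset.mem_image]
      constructor
      · rintro ⟨z, hz, hw⟩
        exact ⟨z.1, ⟨z, hz, rfl⟩, hw⟩
      · rintro ⟨x, ⟨z, hz, rfl⟩, hw⟩
        exact ⟨z, hz, hw⟩
    have h3 : s ⊆ (s.image Prod.fst) ×ˢ (Finset.univ : Finset (Fin d)) := by
      intro z hz
      simp only [Finset.mem_product, Finset.mem_univ, and_true]
      exact Finset.mem_image_of_mem _ hz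
    have h4 := Finset.card_le_card h3
    rw [Finset.card_product, Finset.card_univ, Fintype.card_fin] at h4
    rw [h2, Finset.card_product, Finset.card_univ, Fintype.card_fin]
    have h5 := hall (s.image Prod.fst)
    calc s.card ≤ (s.image Prod.fst).card * d := h4
      _ = d * (s.image Prod.fst).card := mul_comm _ _
      _ ≤ v * (nb B (s.image Prod.fst)).card := h5
      _ = _ := mul_comm _ _
  obtain ⟨f, hf, hft⟩ := (Finset.all_card_le_biUnion_card_iff_exists_injective t).1 h1
  have hbij : Function.Bijective f := by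
    rw [Fintype.bijective_iff_injective_and_card]
    exact ⟨hf, by simp [mul_comm]⟩
  refine ⟨fun i => Finset.univ.filter (fun z => (f z).1 = i), ?_, ?_, ?_, ?_⟩
  · intro i z hz
    have h2 := (Finset.mem_filter.1 hz).2
    have h3 := hft z
    simp only [t, Finset.mem_product, Finset.mem_filter, Finset.mem_univ, true_and,
      and_true] at h3
    simp only [Finset.mem_product, Finset.mem_univ, and_true]
    rw [← h2]; exact h3
  · intro i
    have h2 : (Finset.univ.filter (fun z => (f z).1 = i)).image f = {i} ×ˢ Finset.univ := by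
      ext w
      simp only [Finset.mem_image, Finset.mem_filter, Finset.mem_univ, true_and,
        Finset.mem_product, Finset.mem_singleton, and_true]
      constructor
      · rintro ⟨z, hz, rfl⟩; exact hz
      · intro hw
        obtain ⟨z, rfl⟩ := hbij.2 w
        exact ⟨z, hw, rfl⟩
    rw [← Finset.card_image_of_injective _ hf, h2]
    simp
  · intro i j hij
    rw [Finset.disjoint_left]
    intro z hz hz'
    exact hij ((Finset.mem_filter.1 hz).2.symm.trans (Finset.mem_filter.1 hz').2)
  · intro z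
    exact ⟨(f z).1, Finset.mem_filter.2 ⟨Finset.mem_univ _, rfl⟩⟩

/-- more blocks -/
lemma more_blocks {d0 : ℕ} (h0 : 0 < d0) (hd : d0 ≤ d) {B0 : Fin d0 → Finset (Fin v)}
    (h : IsCovering k B0) : ∃ B : Fin d → Finset (Fin v), IsCovering k B := by
  refine ⟨fun i => if h : i.1 < d0 then B0 ⟨i.1, h⟩ else B0 ⟨0, h0⟩, ?_, ?_⟩
  · intro i
    by_cases hi : i.1 < d0
    · simp [hi, h.1]
    · simp [hi, h.1]
  · intro x y hxy
    obtain ⟨i, h1, h2⟩ := h.2 x y hxy
    refine ⟨⟨i.1, by omega⟩, ?_, ?_⟩
    · simpa using h1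
    · simpa using h2

/-- the pairs of `t` points -/
lemma pairs_design (t : ℕ) : ∃ B : Fin (t.choose 2) → Finset (Fin t), IsCovering 2 B := by
  classical
  refine transport (α := Fin t) (ι := {z : Finset (Fin t) // z.card = 2}) 2 _ t
    (by rw [Fintype.card_finset_len, Fintype.card_fin]) (by simp) (fun z => z.1)
    (fun z => z.2) ?_
  intro x y hxy
  exact ⟨⟨{x, y}, Finset.card_pair hxy⟩, by simp, by simp⟩

lemma exists_tri (d : ℕ) : ∃ t, t * (t - 1) ≤ 2 * d ∧ 2 * d < (t + 1) * t ∧ 0 < t := by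
  induction d with
  | zero => exact ⟨1, by norm_num⟩
  | succ d ih =>
    obtain ⟨t, h1, h2, h3⟩ := ih
    by_cases h : 2 * (d + 1) < (t + 1) * t
    · exact ⟨t, by omega, h, h3⟩
    · refine ⟨t + 1, ?_, ?_, by omega⟩
      · simp only [Nat.add_sub_cancel]; omega
      · nlinarith

def d4 : Fin 4 → Finset (Fin 5) := ![{0, 3, 4}, {1, 2, 4}, {0, 2, 3}, {0, 1, 3}]
def d5 : Fin 5 → Finset (Fin 9) :=
  ![{1, 4, 5, 6, 7}, {2, 3, 4, 5, 6}, {0, 1, 2, 3, 7}, {0, 4, 5, 6, 8}, {1, 2, 3, 7, 8}]
def d7 : Fin 7 → Finset (Fin 7) :=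
  ![{1, 3, 6}, {0, 3, 4}, {0, 1, 5}, {0, 2, 6}, {1, 2, 4}, {4, 5, 6}, {2, 3, 5}]
def d12 : Fin 12 → Finset (Fin 9) :=
  ![{3, 5, 8}, {1, 2, 4}, {1, 6, 8}, {1, 3, 7}, {2, 5, 6}, {0, 4, 8}, {2, 7, 8}, {0, 2, 3},
    {0, 6, 7}, {3, 4, 6}, {0, 1, 5}, {4, 5, 7}]

/-- a sufficiently good design for every `d ≥ 3` -/
lemma good_enough (hd : 3 ≤ d) : ∃ (v k : ℕ) (B : Fin d → Finset (Fin v)), 2 ≤ v ∧ 2 ≤ k ∧
    IsCovering k B ∧ 10 * d * k ^ 2 + 20 * k * v ≤ 29 * v ^ 2 := by
  rcases Nat.lt_or_ge d 15 with hd15 | hd15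
  · rcases Nat.lt_or_ge d 12 with hd12 | hd12
    · rcases Nat.lt_or_ge d 7 with hd7 | hd7
      · interval_cases d
        · obtain ⟨B, hB⟩ := pairs_design 3
          exact ⟨3, 2, B, by norm_num, by norm_num, hB, by norm_num⟩
        · exact ⟨5, 3, d4, by norm_num, by norm_num, by unfold IsCovering; decide, by norm_num⟩
        · exact ⟨9, 5, d5, by norm_num, by norm_num, by unfold IsCovering; decide, by norm_num⟩
        · obtain ⟨B, hB⟩ := pairs_design 4
          exact ⟨4, 2, B, by norm_num, by norm_num, hB, by norm_num⟩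
      · obtain ⟨B, hB⟩ := more_blocks (d := d) (by norm_num) hd7
          (show IsCovering 3 d7 by unfold IsCovering; decide)
        exact ⟨7, 3, B, by norm_num, by norm_num, hB, by omega⟩
    · obtain ⟨B, hB⟩ := more_blocks (d := d) (by norm_num) hd12
        (show IsCovering 3 d12 by unfold IsCovering; decide)
      exact ⟨9, 3, B, by norm_num, by norm_num, hB, by omega⟩
  · obtain ⟨t, h1, h2, h3⟩ := exists_tri d
    have ht6 : 6 ≤ t := by
      by_contra h
      push Not at h
      have : (t + 1) * t ≤ 6 * 5 := Nat.mul_le_mul (by omega) (by omega)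
      omega
    obtain ⟨B0, hB0⟩ := pairs_design t
    have hc : t.choose 2 ≤ d := by
      rw [Nat.choose_two_right]
      exact Nat.div_le_of_le_mul h1
    obtain ⟨B, hB⟩ := more_blocks (d := d) (Nat.choose_pos (by omega)) hc hB0
    refine ⟨t, 2, B, by omega, le_rfl, hB, ?_⟩
    rcases Nat.lt_or_ge t 7 with ht7 | ht7
    · have ht : t = 6 := by omega
      subst ht
      norm_num
      omega
    · obtain ⟨u, rfl⟩ : ∃ u, t = 7 + u := ⟨t - 7, by omega⟩
      have h4 : 20 * (2 * d) + 40 * (7 + u) ≤ 29 * (7 + u) ^ 2 := by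
        have h5 : 20 * (2 * d) ≤ 20 * ((7 + u + 1) * (7 + u)) := Nat.mul_le_mul_left _ h2.le
        have h6 : 20 * ((7 + u + 1) * (7 + u)) + 40 * (7 + u) ≤ 29 * (7 + u) ^ 2 := by
          nlinarith
        omega
      calc 10 * d * 2 ^ 2 + 20 * 2 * (7 + u) = 20 * (2 * d) + 40 * (7 + u) := by ring
        _ ≤ _ := h4

/-- Q1 for every `d` -/
theorem good_all (hd : 3 ≤ d) : Good d := by
  classical
  have hd0 : 0 < d := by omega
  obtain ⟨n, k0, hk0, hP, hn0, hopt⟩ := attained hd0
  have hvpos := val_pos hn0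
  obtain ⟨B0, hB0⟩ := design_of_P hP
  -- optimality for designs
  have hdes : ∀ (v k : ℕ) (B : Fin d → Finset (Fin v)), 2 ≤ v → IsCovering k B →
      v * k0 ≤ val n * k := by
    intro v k B hv hB
    have h := P_of_types (fun x => Finset.univ.filter (fun i => x ∈ B i)) k (by
      intro x y
      obtain ⟨i, h1, h2⟩ := common B hv hB x y
      exact ⟨i, by simp [h1, h2]⟩) (by
      intro i
      rw [← hB.1 i]
      congr 1
      ext x
      simp)
    have h2 := hopt _ _ h.1
    rw [h.2, Fintype.card_fin] at h2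
    exact h2
  refine ⟨freq d (2 * val n) (2 * k0), ?_, ⟨2 * val n, 2 * k0, B0, by omega, by omega, hB0,
    le_rfl⟩, ?_⟩
  · unfold freq
    have : (0 : ℝ) < d := by exact_mod_cast hd0
    positivity
  · intro v k B hv hk hB hf
    have hk' : 0 < k := by omega
    -- `v k0 ≥ val n * k`
    have h1 : val n * k ≤ v * k0 := by
      unfold freq at hf
      rw [div_le_div_iff₀ (by exact_mod_cast (by omega : 0 < v))
        (by exact_mod_cast (by omega : 0 < 2 * val n))] at hf
      have h2 : k * d * (2 * val n) ≤ 2 * k0 * d * v := by exact_mod_cast hf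
      have h3 : (2 * d) * (val n * k) ≤ (2 * d) * (v * k0) := by
        calc (2 * d) * (val n * k) = k * d * (2 * val n) := by ring
          _ ≤ 2 * k0 * d * v := h2
          _ = _ := by ring
      exact le_of_mul_le_mul_left h3 (by omega)
    apply mm_of_hall
    intro X
    by_contra hX
    push Not at hX
    rcases Nat.lt_or_ge X.card k with hXk | hXk
    · have h2 := small_violation B hv hk' hB X hX hXk.le
      obtain ⟨v1, k1, B1, hv1, hk1, hB1, h3⟩ := good_enough hd
      have h4 := hdes v1 k1 B1 hv1 hB1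
      -- `v1 k ≤ v k1`
      have h5 : v1 * k ≤ v * k1 := by
        have : k0 * (v1 * k) ≤ k0 * (v * k1) := by
          calc k0 * (v1 * k) = (v1 * k0) * k := by ring
            _ ≤ (val n * k1) * k := Nat.mul_le_mul_right _ h4
            _ = (val n * k) * k1 := by ring
            _ ≤ (v * k0) * k1 := Nat.mul_le_mul_right _ h1
            _ = _ := by ring
        exact le_of_mul_le_mul_left this hk0
      -- real inequality
      have e1 : (29 : ℝ) * v ^ 2 < 10 * d * k ^ 2 + 20 * k * v := by exact_mod_cast h2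
      have e2 : 10 * (d : ℝ) * k1 ^ 2 + 20 * k1 * v1 ≤ 29 * (v1 : ℝ) ^ 2 := by exact_mod_cast h3
      have e3 : (v1 : ℝ) * k ≤ v * k1 := by exact_mod_cast h5
      have hk1' : (0 : ℝ) < k1 := by exact_mod_cast (by omega : 0 < k1)
      have hk'' : (0 : ℝ) < k := by exact_mod_cast hk'
      have hv1' : (0 : ℝ) < v1 := by exact_mod_cast (by omega : 0 < v1)
      have hv'' : (0 : ℝ) < v := by exact_mod_cast (by omega : 0 < v)
      have hd' : (0 : ℝ) < d := by exact_mod_cast hd0
      -- ratios
      set a : ℝ := v1 / k1 with ha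
      set b : ℝ := v / k with hb
      have f1 : (v1 : ℝ) = a * k1 := by rw [ha]; field_simp
      have f2 : (v : ℝ) = b * k := by rw [hb]; field_simp
      have f3 : a ≤ b := by
        rw [ha, hb, div_le_div_iff₀ hk1' hk'']
        linarith
      have f4 : 10 * (d : ℝ) + 20 * a ≤ 29 * a ^ 2 := by
        rw [f1] at e2
        have : k1 ^ 2 * (10 * (d : ℝ) + 20 * a) ≤ k1 ^ 2 * (29 * a ^ 2) := by nlinarith
        exact le_of_mul_le_mul_left this (by positivity)
      have f5 : 29 * b ^ 2 < 10 * (d : ℝ) + 20 * b := by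
        rw [f2] at e1
        have : k ^ 2 * (29 * b ^ 2) < k ^ 2 * (10 * (d : ℝ) + 20 * b) := by nlinarith
        exact lt_of_mul_lt_mul_left this (by positivity)
      have fa : 0 < a := by positivity
      have f6 : 20 < 29 * a := by
        by_contra hc
        push Not at hc
        nlinarith
      nlinarith
    · obtain ⟨N, n', hN, hn', hlt⟩ := improve B hv hk' hB X hX hXk
      have h2 := hopt n' (N * k) hn'
      have h3 : N * v * k0 < val n' * k0 := Nat.mul_lt_mul_of_pos_right hlt hk0
      have h4 : val n * (N * k) ≤ N * (v * k0) := by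
        calc val n * (N * k) = N * (val n * k) := by ring
          _ ≤ _ := Nat.mul_le_mul_left _ h1
      have h5 : N * (v * k0) = N * v * k0 := by ring
      omega

end Pool.Agent.V1162.MM
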