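import Pool.Agent.V1162.MM.Core

set_option autoImplicit false

namespace Pool.Agent.V1162.MM

variable {d v k : ℕ}

lemma common (B : Fin d → Finset (Fin v)) (hv : 2 ≤ v) (hB : IsCovering k B) (x y : Fin v) :
    ∃ i, x ∈ B i ∧ y ∈ B i := by
  by_cases hxy : x = y
  · subst hxy
    have : Nontrivial (Fin v) := Fin.nontrivial_iff_two_le.2 hv
    obtain ⟨z, hz⟩ := exists_ne x
    obtain ⟨i, hi, -⟩ := hB.2 x z hz.symm
    exact ⟨i, hi, hi⟩
  · exact hB.2 x y hxy

lemma mem_nb {B : Fin d → Finset (Fin v)} {X : Finset (Fin v)} {x : Fin v} {i : Fin d}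
    (hx : x ∈ X) (hi : x ∈ B i) : i ∈ nb B X :=
  Finset.mem_filter.2 ⟨Finset.mem_univ _, x, hx, hi⟩

lemma deg_X (B : Fin d → Finset (Fin v)) (hv : 2 ≤ v) (hB : IsCovering k B)
    (X : Finset (Fin v)) (x : Fin v) (hx : x ∈ X) :
    v ≤ k * ((nb B X).filter (fun i => x ∈ B i)).card := by
  have := deg_bound B hB.1 X x Finset.univ (by
    intro z _
    obtain ⟨i, hi, hz⟩ := common B hv hB x z
    exact ⟨i, mem_nb hx hi, hi, hz⟩)
  simpa using this

lemma deg_all (B : Fin d → Finset (Fin v)) (hv : 2 ≤ v) (hB : IsCovering k B)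
    (X : Finset (Fin v)) (y : Fin v) :
    X.card ≤ k * ((nb B X).filter (fun i => y ∈ B i)).card := by
  refine deg_bound B hB.1 X y X ?_
  intro z hz
  obtain ⟨i, hi, hz'⟩ := common B hv hB y z
  exact ⟨i, mem_nb hz hz', hi, hz'⟩

lemma sum_deg (B : Fin d → Finset (Fin v)) (hB : IsCovering k B) (X : Finset (Fin v)) :
    ∑ y : Fin v, ((nb B X).filter (fun i => y ∈ B i)).card = k * (nb B X).card := by
  have : ∀ y : Fin v, ((nb B X).filter (fun i => y ∈ B i)).card
      = ∑ i ∈ nb B X, if y ∈ B i then 1 else 0 := by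
    intro y
    rw [Finset.card_filter]
  rw [Finset.sum_congr rfl (fun y _ => this y), Finset.sum_comm]
  have h7 : ∀ i ∈ nb B X, (∑ y : Fin v, if y ∈ B i then 1 else 0) = k := by
    intro i _
    rw [← Finset.card_filter]
    simp [hB.1 i]
  rw [Finset.sum_congr rfl h7, Finset.sum_const, smul_eq_mul, mul_comm]

/-- counting, first form -/
lemma count1 (B : Fin d → Finset (Fin v)) (hv : 2 ≤ v) (hB : IsCovering k B)
    (X : Finset (Fin v)) (m : ℕ) (hm : v = X.card + m) :
    X.card * v + m * X.card ≤ k * (k * (nb B X).card) := by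
  rw [← sum_deg B hB X, Finset.mul_sum, ← Finset.sum_add_sum_compl X]
  refine add_le_add ?_ ?_
  · calc X.card * v = ∑ y ∈ X, v := by rw [Finset.sum_const, smul_eq_mul]
      _ ≤ _ := Finset.sum_le_sum (fun x hx => deg_X B hv hB X x hx)
  · calc m * X.card = ∑ y ∈ Xᶜ, X.card := by
          rw [Finset.sum_const, smul_eq_mul, Finset.card_compl, Fintype.card_fin]
          congr 1
          omega
      _ ≤ _ := Finset.sum_le_sum (fun y _ => deg_all B hv hB X y)

/-- counting, second form -/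
lemma count2 (B : Fin d → Finset (Fin v)) (hv : 2 ≤ v) (hB : IsCovering k B)
    (X : Finset (Fin v)) (hX : X.Nonempty) (m c : ℕ) (hm : v = X.card + m)
    (hc : k = X.card + c) :
    X.card * v + k * (2 * m) ≤ k * (k * (nb B X).card) + k * ((nb B X).card * c) := by
  classical
  let J1 := (nb B X).filter (fun i => X ⊆ B i)
  have h1 : ∀ y ∈ Xᶜ, 2 ≤ ((nb B X).filter (fun i => y ∈ B i)).card +
      (J1.filter (fun i => y ∈ B i)).card := by
    intro y _
    obtain ⟨x, hx⟩ := hX
    obtain ⟨i, hxi, hyi⟩ := common B hv hB x y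
    by_cases hsub : X ⊆ B i
    · have e1 : 0 < ((nb B X).filter (fun i => y ∈ B i)).card :=
        Finset.card_pos.2 ⟨i, Finset.mem_filter.2 ⟨mem_nb hx hxi, hyi⟩⟩
      have e2 : 0 < (J1.filter (fun i => y ∈ B i)).card :=
        Finset.card_pos.2 ⟨i, Finset.mem_filter.2
          ⟨Finset.mem_filter.2 ⟨mem_nb hx hxi, hsub⟩, hyi⟩⟩
      omega
    · obtain ⟨x', hx', hx'i⟩ := Finset.not_subset.1 hsub
      obtain ⟨i', hxi', hyi'⟩ := common B hv hB x' y
      have hne : i ≠ i' := by
        intro h; subst h; exact hx'i hxi'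
      have e1 : 1 < ((nb B X).filter (fun i => y ∈ B i)).card :=
        Finset.one_lt_card.2 ⟨i, Finset.mem_filter.2 ⟨mem_nb hx hxi, hyi⟩, i',
          Finset.mem_filter.2 ⟨mem_nb hx' hxi', hyi'⟩, hne⟩
      omega
  have h2 : ∑ y ∈ Xᶜ, (J1.filter (fun i => y ∈ B i)).card ≤ (nb B X).card * c := by
    have : ∀ y : Fin v, (J1.filter (fun i => y ∈ B i)).card
        = ∑ i ∈ J1, if y ∈ B i then 1 else 0 := by
      intro y
      rw [Finset.card_filter]
    rw [Finset.sum_congr rfl (fun y _ => this y), Finset.sum_comm]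
    have h7 : ∀ i ∈ J1, (∑ y ∈ Xᶜ, if y ∈ B i then 1 else 0) ≤ c := by
      intro i hi
      rw [← Finset.card_filter]
      have hsub : X ⊆ B i := (Finset.mem_filter.1 hi).2
      have : (Xᶜ.filter (fun y => y ∈ B i)) = B i \ X := by
        ext y
        simp only [Finset.mem_filter, Finset.mem_compl, Finset.mem_sdiff]
        tauto
      rw [this, Finset.card_sdiff_of_subset hsub, hB.1 i]
      omega
    calc _ ≤ ∑ i ∈ J1, c := Finset.sum_le_sum h7
      _ = J1.card * c := by rw [Finset.sum_const, smul_eq_mul]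
      _ ≤ _ := Nat.mul_le_mul_right _ (Finset.card_filter_le _ _)
  have h3 : 2 * m ≤ ∑ y ∈ Xᶜ, ((nb B X).filter (fun i => y ∈ B i)).card +
      (nb B X).card * c := by
    calc 2 * m = ∑ y ∈ Xᶜ, 2 := by
          rw [Finset.sum_const, smul_eq_mul, Finset.card_compl, Fintype.card_fin]
          omega
      _ ≤ ∑ y ∈ Xᶜ, (((nb B X).filter (fun i => y ∈ B i)).card +
            (J1.filter (fun i => y ∈ B i)).card) := Finset.sum_le_sum h1
      _ ≤ _ := by rw [Finset.sum_add_distrib]; omega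
  have h4 : X.card * v ≤ k * ∑ y ∈ X, ((nb B X).filter (fun i => y ∈ B i)).card := by
    rw [Finset.mul_sum]
    calc X.card * v = ∑ y ∈ X, v := by rw [Finset.sum_const, smul_eq_mul]
      _ ≤ _ := Finset.sum_le_sum (fun x hx => deg_X B hv hB X x hx)
  have h5 := sum_deg B hB X
  rw [← Finset.sum_add_sum_compl X] at h5
  rw [← h5]
  have h6 := Nat.mul_le_mul_left k h3
  nlinarith

/-- a violating set with fewer than `k` elements forces `10 d k² > 29 v² - 20 k v` -/
lemma small_violation (B : Fin d → Finset (Fin v)) (hv : 2 ≤ v) (hk : 0 < k) (hB : IsCovering k B)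
    (X : Finset (Fin v)) (hX : v * (nb B X).card < d * X.card) (hXk : X.card ≤ k) :
    29 * v ^ 2 < 10 * d * k ^ 2 + 20 * k * v := by
  by_contra hcon
  push Not at hcon
  have hn : 0 < X.card := by
    rcases Nat.eq_zero_or_pos X.card with h0 | h0
    · rw [h0] at hX; simp at hX
    · exact h0
  have hXv : X.card ≤ v := by simpa using Finset.card_le_univ X
  obtain ⟨m, hm⟩ : ∃ m, v = X.card + m := ⟨v - X.card, by omega⟩
  obtain ⟨c, hc⟩ : ∃ c, k = X.card + c := ⟨k - X.card, by omega⟩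
  have h1 := count2 B hv hB X (Finset.card_pos.1 hn) m c hm hc
  set n := X.card with hndef
  set j := (nb B X).card with hjdef
  -- pass to the reals
  have hn' : (0 : ℝ) < n := by exact_mod_cast hn
  have hk' : (0 : ℝ) < k := by exact_mod_cast hk
  have hv' : (0 : ℝ) < v := by exact_mod_cast (by omega : 0 < v)
  have hm' : (m : ℝ) = v - n := by
    have : (v : ℝ) = n + m := by exact_mod_cast hm
    linarith
  have hc' : (c : ℝ) = k - n := by
    have : (k : ℝ) = n + c := by exact_mod_cast hc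
    linarith
  have hc0 : (0 : ℝ) ≤ c := Nat.cast_nonneg c
  have hkn : (n : ℝ) ≤ k := by linarith
  have g1 : (n : ℝ) * v + k * (2 * (v - n)) ≤ k * (k * j) + k * (j * (k - n)) := by
    have : (n : ℝ) * v + k * (2 * m) ≤ k * (k * j) + k * (j * c) := by exact_mod_cast h1
    rw [hm', hc'] at this
    exact this
  have g2 : (v : ℝ) * j < d * n := by exact_mod_cast hX
  have g3 : 10 * (d : ℝ) * k ^ 2 + 20 * k * v ≤ 29 * (v : ℝ) ^ 2 := by exact_mod_cast hcon
  have g4 : 0 < (k : ℝ) * (2 * k - n) := mul_pos hk' (by linarith)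
  -- j k (2k - n) ≥ n v + 2 k (v - n)
  have g5 : (v : ℝ) * (n * v + 2 * k * (v - n)) < d * n * (k * (2 * k - n)) := by
    have e1 : (v : ℝ) * (n * v + 2 * k * (v - n)) ≤ v * (j * (k * (2 * k - n))) := by
      apply mul_le_mul_of_nonneg_left _ hv'.le
      linarith
    have e2 : v * (j * ((k : ℝ) * (2 * k - n))) < d * n * (k * (2 * k - n)) := by
      have := mul_lt_mul_of_pos_right g2 g4
      linarith
    linarith
  have g6 : 10 * (k : ℝ) * (v * (n * v + 2 * k * (v - n))) <
      (29 * v ^ 2 - 20 * k * v) * (n * (2 * k - n)) := by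
    have e1 := mul_lt_mul_of_pos_left g5 (show (0 : ℝ) < 10 * k by positivity)
    have e2 : 10 * (k : ℝ) * (d * n * (k * (2 * k - n))) =
        (10 * d * k ^ 2) * (n * (2 * k - n)) := by ring
    rw [e2] at e1
    have e3 : (10 * (d : ℝ) * k ^ 2) * (n * (2 * k - n)) ≤
        (29 * v ^ 2 - 20 * k * v) * (n * (2 * k - n)) := by
      apply mul_le_mul_of_nonneg_right _ (mul_nonneg hn'.le (by linarith))
      linarith
    linarith
  have g7 : 0 < (v : ℝ) * (v * (58 * k * n - 29 * n ^ 2 - 10 * k * n - 20 * k ^ 2) +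
      20 * k * n * (n - k)) := by
    nlinarith [g6]
  have g8 := (mul_pos_iff_of_pos_left hv').1 g7
  have g9 : (58 * (k : ℝ) * n - 29 * n ^ 2 - 10 * k * n - 20 * k ^ 2) ≤ 0 := by
    nlinarith [sq_nonneg (29 * (n : ℝ) - 24 * k), sq_nonneg (k : ℝ)]
  have g10 : 20 * (k : ℝ) * n * (n - k) ≤ 0 :=
    mul_nonpos_of_nonneg_of_nonpos (by positivity) (by linarith)
  have g11 : (v : ℝ) * (58 * k * n - 29 * n ^ 2 - 10 * k * n - 20 * k ^ 2) ≤ 0 :=
    mul_nonpos_of_nonneg_of_nonpos hv'.le g9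
  linarith

end Pool.Agent.V1162.MM
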