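import Pool.Agent.V1162.MM.Opt
import Pool.Agent.V1162.MM.Small

set_option autoImplicit false

namespace Pool.Agent.V1162.MM

variable {d v k : ℕ}

/-- blocks for the pairs of `t` groups -/
lemma groups (t : ℕ) (ht : 2 ≤ t) (Jc : Finset (Fin d)) (hc : t.choose 2 ≤ Jc.card) :
    ∃ φ : Fin t → Finset (Fin d), (∀ a, φ a ⊆ Jc) ∧ (∀ a b, (φ a ∩ φ b).Nonempty) ∧
      (∀ a, (φ a).card ≤ t - 1) ∧ ∀ i, (Finset.univ.filter (fun a => i ∈ φ a)).card ≤ 2 := by
  classical
  have h1 : Fintype.card {z : Finset (Fin t) // z.card = 2} ≤ Fintype.card {i // i ∈ Jc} := by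
    rw [Fintype.card_finset_len, Fintype.card_fin, Fintype.card_coe]
    exact hc
  obtain ⟨g⟩ := Function.Embedding.nonempty_of_card_le h1
  refine ⟨fun a => Finset.univ.filter (fun i => ∃ z : {z : Finset (Fin t) // z.card = 2},
    a ∈ z.1 ∧ (g z).1 = i), ?_, ?_, ?_, ?_⟩
  · intro a i hi
    obtain ⟨z, -, rfl⟩ := (Finset.mem_filter.1 hi).2
    exact (g z).2
  · intro a b
    by_cases hab : a = b
    · subst hab
      have : Nontrivial (Fin t) := Fin.nontrivial_iff_two_le.2 ht
      obtain ⟨c, hc⟩ := exists_ne a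
      refine ⟨(g ⟨{a, c}, Finset.card_pair hc.symm⟩).1, ?_⟩
      rw [Finset.inter_self]
      exact Finset.mem_filter.2 ⟨Finset.mem_univ _, ⟨{a, c}, Finset.card_pair hc.symm⟩,
        by simp, rfl⟩
    · refine ⟨(g ⟨{a, b}, Finset.card_pair hab⟩).1, ?_⟩
      rw [Finset.mem_inter]
      exact ⟨Finset.mem_filter.2 ⟨Finset.mem_univ _, ⟨{a, b}, Finset.card_pair hab⟩,
        by simp, rfl⟩, Finset.mem_filter.2 ⟨Finset.mem_univ _,
        ⟨{a, b}, Finset.card_pair hab⟩, by simp, rfl⟩⟩
  · intro a
    have h2 : (Finset.univ.filter (fun i => ∃ z : {z : Finset (Fin t) // z.card = 2},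
        a ∈ z.1 ∧ (g z).1 = i)) ⊆
        (Finset.univ.filter (fun z : {z : Finset (Fin t) // z.card = 2} => a ∈ z.1)).image
          (fun z => (g z).1) := by
      intro i hi
      obtain ⟨z, hz, rfl⟩ := (Finset.mem_filter.1 hi).2
      exact Finset.mem_image.2 ⟨z, Finset.mem_filter.2 ⟨Finset.mem_univ _, hz⟩, rfl⟩
    have h3 : (Finset.univ.filter
        (fun z : {z : Finset (Fin t) // z.card = 2} => a ∈ z.1)).card ≤
        (Finset.powersetCard 1 (Finset.univ.erase a)).card := by
      apply Finset.card_le_card_of_injOn (fun z => z.1.erase a)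
      · intro z hz
        have hz' : a ∈ z.1 := by simpa using hz
        rw [Finset.mem_coe, Finset.mem_powersetCard]
        refine ⟨Finset.erase_subset_erase _ (Finset.subset_univ _), ?_⟩
        rw [Finset.card_erase_of_mem hz', z.2]
      · intro z hz z' hz' h
        have hz1 : a ∈ z.1 := by simpa using hz
        have hz2 : a ∈ z'.1 := by simpa using hz'
        apply Subtype.ext
        simp only at h
        rw [← Finset.insert_erase hz1, ← Finset.insert_erase hz2, h]
    rw [Finset.card_powersetCard, Finset.card_erase_of_mem (Finset.mem_univ _),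
      Finset.card_univ, Fintype.card_fin, Nat.choose_one_right] at h3
    exact (Finset.card_le_card h2).trans (Finset.card_image_le.trans h3)
  · intro i
    rcases Finset.eq_empty_or_nonempty (Finset.univ.filter (fun a => i ∈
        Finset.univ.filter (fun i => ∃ z : {z : Finset (Fin t) // z.card = 2},
          a ∈ z.1 ∧ (g z).1 = i))) with h0 | ⟨a, ha⟩
    · rw [h0]; simp
    · obtain ⟨z, hz, hgz⟩ := (Finset.mem_filter.1 (Finset.mem_filter.1 ha).2).2
      refine (Finset.card_le_card (t := z.1) ?_).trans z.2.le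
      intro b hb
      obtain ⟨z', hz', hgz'⟩ := (Finset.mem_filter.1 (Finset.mem_filter.1 hb).2).2
      have : z' = z := g.injective (Subtype.ext (hgz'.trans hgz.symm))
      exact this ▸ hz'

/-- distributing the elements of `Z` over boxes of given capacities -/
lemma assign {Z : Type} [Fintype Z] (Jc : Finset (Fin d)) (c : Fin d → ℕ)
    (h : Fintype.card Z ≤ ∑ i ∈ Jc, c i) :
    ∃ ψ : Z → Fin d, (∀ z, ψ z ∈ Jc) ∧
      ∀ i ∈ Jc, (Finset.univ.filter (fun z => ψ z = i)).card ≤ c i := by
  classical
  have h1 : Fintype.card Z ≤ Fintype.card (Σ i : {i // i ∈ Jc}, Fin (c i.1)) := by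
    rw [Fintype.card_sigma]
    simp only [Fintype.card_fin]
    rw [Finset.sum_coe_sort Jc c]
    exact h
  obtain ⟨e⟩ := Function.Embedding.nonempty_of_card_le h1
  refine ⟨fun z => (e z).1.1, fun z => (e z).1.2, ?_⟩
  intro i _
  rw [← Finset.card_range (c i)]
  apply Finset.card_le_card_of_injOn (fun z => ((e z).2 : ℕ))
  · intro z hz
    have hz' : (e z).1.1 = i := by simpa using hz
    rw [Finset.mem_coe, Finset.mem_range, ← hz']
    exact (e z).2.2
  · intro z hz z' hz' hzz
    have h1 : (e z).1.1 = i := by simpa using hz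
    have h2 : (e z').1.1 = i := by simpa using hz'
    apply e.injective
    change ((e z).2 : ℕ) = ((e z').2 : ℕ) at hzz
    generalize e z = w at *
    generalize e z' = w' at *
    obtain ⟨⟨i1, hi1⟩, x1⟩ := w
    obtain ⟨⟨i2, hi2⟩, x2⟩ := w'
    simp only at h1 h2 hzz
    subst h1
    subst h2
    congr 1
    exact Fin.ext hzz

/-- a violating set with at least `k` elements gives a better design -/
lemma improve (B : Fin d → Finset (Fin v)) (hv : 2 ≤ v) (hk : 0 < k) (hB : IsCovering k B)
    (X : Finset (Fin v)) (hX : v * (nb B X).card < d * X.card) (hXk : k ≤ X.card) :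
    ∃ (N : ℕ) (n : Finset (Fin d) → ℕ), 0 < N ∧ P n (N * k) ∧ N * v < val n := by
  classical
  have hn : 0 < X.card := by omega
  have hXv : X.card ≤ v := by simpa using Finset.card_le_univ X
  obtain ⟨s, hs⟩ : ∃ s, v = X.card + s := ⟨v - X.card, by omega⟩
  have hC := count1 B hv hB X s hs
  have hjm : (nb B X).card + (nb B X)ᶜ.card = d := by
    rw [Finset.card_add_card_compl, Fintype.card_fin]
  have hmpos : 0 < (nb B X)ᶜ.card := by
    by_contra h0
    have h0' : (nb B X)ᶜ.card = 0 := by omega
    have : (nb B X).card = d := by omega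
    rw [this] at hX
    nlinarith
  obtain ⟨i0, hi0⟩ := Finset.card_pos.1 hmpos
  have hks : k ≤ s := by
    have hd : Disjoint (B i0) X := by
      rw [Finset.disjoint_left]
      intro a ha hx
      exact (Finset.mem_compl.1 hi0) (mem_nb hx ha)
    have := Finset.card_le_univ (B i0 ∪ X)
    rw [Finset.card_union_of_disjoint hd, hB.1, Fintype.card_fin] at this
    omega
  set J := nb B X with hJ
  set m := Jᶜ.card with hm
  set j := J.card with hj
  set n := X.card with hnn
  -- `j s < m n`
  have hV : j * s < m * n := by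
    have h1 : (n + s) * j < (j + m) * n := by rw [hjm, ← hs]; exact hX
    nlinarith
  have hM : s * (v + s) < m * (k * k) := by
    have h1 : n * (s * (v + s)) < n * (m * (k * k)) := by
      calc n * (s * (v + s)) = (n * v + s * n) * s := by ring
        _ ≤ k * (k * j) * s := Nat.mul_le_mul_right _ hC
        _ = k * k * (j * s) := by ring
        _ < k * k * (m * n) := Nat.mul_lt_mul_of_pos_left hV (by positivity)
        _ = n * (m * (k * k)) := by ring
    exact lt_of_mul_lt_mul_left h1 (Nat.zero_le _)
  obtain ⟨t', ht'⟩ : ∃ t', t' = 2 * s / k := ⟨_, rfl⟩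
  have ht1 : 2 * s + 1 ≤ (t' + 1) * k := by
    have := Nat.lt_mul_div_succ (2 * s) hk
    rw [← ht'] at this
    rw [mul_comm (t' + 1) k]
    exact this
  have ht2 : t' * k ≤ 2 * s := by rw [ht']; exact Nat.div_mul_le_self _ _
  have ht3 : 2 ≤ t' := by
    rw [ht', Nat.le_div_iff_mul_le hk]; omega
  set t := t' + 1 with htdef
  have hi3 : t.choose 2 ≤ m := by
    rw [Nat.choose_two_right]
    apply Nat.div_le_of_le_mul
    have h1 : (k * k) * (t * (t - 1)) < (k * k) * (2 * m) := by
      have e1 : t - 1 = t' := by omega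
      rw [e1]
      have e2 : t * k ≤ 2 * s + k := by rw [htdef]; nlinarith
      calc (k * k) * (t * t') = (t * k) * (t' * k) := by ring
        _ ≤ (2 * s + k) * (2 * s) := Nat.mul_le_mul e2 ht2
        _ = 2 * (s * (2 * s + k)) := by ring
        _ ≤ 2 * (s * (v + s)) := by
            apply Nat.mul_le_mul_left
            apply Nat.mul_le_mul_left
            omega
        _ < 2 * (m * (k * k)) := by omega
        _ = (k * k) * (2 * m) := by ring
    exact (lt_of_mul_lt_mul_left h1 (Nat.zero_le _)).le
  have hi2 : s * t' + n + 1 ≤ m * k := by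
    have h1 : k * (s * t' + n) < k * (m * k) := by
      calc k * (s * t' + n) = s * (t' * k) + k * n := by ring
        _ ≤ s * (2 * s) + s * n := by
            apply add_le_add (Nat.mul_le_mul_left _ ht2) (Nat.mul_le_mul_right _ hks)
        _ = s * (v + s) := by rw [hs]; ring
        _ < m * (k * k) := hM
        _ = k * (m * k) := by ring
    have := lt_of_mul_lt_mul_left h1 (Nat.zero_le _)
    omega
  obtain ⟨φ, hφ1, hφ2, hφ3, hφ4⟩ := groups t (by omega) Jᶜ hi3
  let l : Fin d → ℕ := fun i => (Finset.univ.filter (fun a => i ∈ φ a)).card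
  have hl : ∀ i, s * m * l i + 1 ≤ t * m * k := by
    intro i
    have h1 : l i ≤ 2 := hφ4 i
    calc s * m * l i + 1 ≤ s * m * 2 + 1 := by
          have := Nat.mul_le_mul_left (s * m) h1; omega
      _ = m * (2 * s) + 1 := by ring
      _ ≤ m * (2 * s) + m := by omega
      _ = m * (2 * s + 1) := by ring
      _ ≤ m * (t * k) := Nat.mul_le_mul_left _ ht1
      _ = t * m * k := by ring
  have hlsum : ∑ i ∈ Jᶜ, l i ≤ t * t' := by
    have : ∀ i, l i = ∑ a : Fin t, if i ∈ φ a then 1 else 0 := by
      intro i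
      simp only [l]
      rw [Finset.card_filter]
    rw [Finset.sum_congr rfl (fun i _ => this i), Finset.sum_comm]
    calc ∑ a : Fin t, ∑ i ∈ Jᶜ, (if i ∈ φ a then 1 else 0)
        ≤ ∑ a : Fin t, t' := by
          apply Finset.sum_le_sum
          intro a _
          rw [← Finset.card_filter]
          have : (Jᶜ.filter (fun i => i ∈ φ a)) ⊆ φ a := by
            intro i hi; exact (Finset.mem_filter.1 hi).2
          have h3 := hφ3 a
          have h4 := Finset.card_le_card this
          omega
      _ = t * t' := by rw [Finset.sum_const, smul_eq_mul, Finset.card_univ, Fintype.card_fin]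
  let c : Fin d → ℕ := fun i => t * m * k - 1 - s * m * l i
  have hcsum : n * (t * m) ≤ ∑ i ∈ Jᶜ, c i := by
    have h1 : ∑ i ∈ Jᶜ, c i + (m + s * m * ∑ i ∈ Jᶜ, l i) = m * (t * m * k) := by
      have : ∀ i ∈ Jᶜ, c i + (1 + s * m * l i) = t * m * k := by
        intro i _
        have := hl i
        simp only [c]
        omega
      have e1 := Finset.sum_congr rfl this
      rw [Finset.sum_add_distrib, Finset.sum_add_distrib, Finset.sum_const, Finset.sum_const,
        smul_eq_mul, smul_eq_mul, mul_one, ← Finset.mul_sum] at e1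
      exact e1
    have h2 : s * m * ∑ i ∈ Jᶜ, l i ≤ s * m * (t * t') := Nat.mul_le_mul_left _ hlsum
    have h3 : n * (t * m) + (m + s * m * (t * t')) ≤ m * (t * m * k) := by
      have h4 : (s * t' + n + 1) * (t * m) ≤ m * k * (t * m) := Nat.mul_le_mul_right _ hi2
      have h5 : m ≤ t * m := Nat.le_mul_of_pos_left _ (by omega)
      calc n * (t * m) + (m + s * m * (t * t')) ≤ n * (t * m) + (t * m + s * m * (t * t')) := by
            omega
        _ = (s * t' + n + 1) * (t * m) := by ring
        _ ≤ m * k * (t * m) := h4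
        _ = m * (t * m * k) := by ring
    omega
  obtain ⟨ψ, hψ1, hψ2⟩ := assign (Z := {x // x ∈ X} × (Fin t × Fin m)) Jᶜ c (by
    rw [Fintype.card_prod, Fintype.card_prod, Fintype.card_fin, Fintype.card_fin,
      Fintype.card_coe]
    exact hcsum)
  let T0 : Fin v → Finset (Fin d) := fun y => Finset.univ.filter (fun i => y ∈ B i)
  have hT0 : ∀ y i, i ∈ T0 y ↔ y ∈ B i := by intro y i; simp [T0]
  have hT0J : ∀ y ∈ X, ∀ i, i ∈ T0 y → i ∈ J := by
    intro y hy i hi
    exact mem_nb hy ((hT0 y i).1 hi)
  have hT0c : ∀ x y, (T0 x ∩ T0 y).Nonempty := by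
    intro x y
    obtain ⟨i, h1, h2⟩ := common B hv hB x y
    exact ⟨i, Finset.mem_inter.2 ⟨(hT0 x i).2 h1, (hT0 y i).2 h2⟩⟩
  let T : (Fin v × (Fin t × Fin m)) ⊕ Unit → Finset (Fin d) := fun z =>
    match z with
    | Sum.inl (y, p) => if h : y ∈ X then insert (ψ (⟨y, h⟩, p)) (T0 y) else (T0 y ∩ J) ∪ φ p.1
    | Sum.inr _ => Jᶜ
  have hTX : ∀ y p (h : y ∈ X), T (Sum.inl (y, p)) = insert (ψ (⟨y, h⟩, p)) (T0 y) := by
    intro y p h
    simp only [T, dif_pos h]
  have hTn : ∀ y p, y ∉ X → T (Sum.inl (y, p)) = (T0 y ∩ J) ∪ φ p.1 := by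
    intro y p h
    simp only [T, dif_neg h]
  have hTr : ∀ u, T (Sum.inr u) = Jᶜ := fun _ => rfl
  -- helper facts
  have hr : ∀ y p, (T (Sum.inl (y, p)) ∩ Jᶜ).Nonempty := by
    intro y p
    by_cases h : y ∈ X
    · rw [hTX y p h]
      exact ⟨ψ (⟨y, h⟩, p), Finset.mem_inter.2 ⟨Finset.mem_insert_self _ _, hψ1 _⟩⟩
    · rw [hTn y p h]
      obtain ⟨i, hi⟩ := hφ2 p.1 p.1
      rw [Finset.inter_self] at hi
      exact ⟨i, Finset.mem_inter.2 ⟨Finset.mem_union_right _ hi, hφ1 _ hi⟩⟩
  have hXn : ∀ x p y q (hx : x ∈ X), y ∉ X →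
      (T (Sum.inl (x, p)) ∩ T (Sum.inl (y, q))).Nonempty := by
    intro x p y q hx hy
    rw [hTX x p hx, hTn y q hy]
    obtain ⟨i, hi⟩ := hT0c x y
    rw [Finset.mem_inter] at hi
    exact ⟨i, Finset.mem_inter.2 ⟨Finset.mem_insert_of_mem hi.1,
      Finset.mem_union_left _ (Finset.mem_inter.2 ⟨hi.2, hT0J x hx i hi.1⟩)⟩⟩
  have hint : ∀ z w, (T z ∩ T w).Nonempty := by
    rintro (⟨x, p⟩ | u) (⟨y, q⟩ | w)
    · by_cases hx : x ∈ X <;> by_cases hy : y ∈ X
      · rw [hTX x p hx, hTX y q hy]
        obtain ⟨i, hi⟩ := hT0c x y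
        rw [Finset.mem_inter] at hi
        exact ⟨i, Finset.mem_inter.2 ⟨Finset.mem_insert_of_mem hi.1,
          Finset.mem_insert_of_mem hi.2⟩⟩
      · exact hXn x p y q hx hy
      · rw [Finset.inter_comm]; exact hXn y q x p hy hx
      · rw [hTn x p hx, hTn y q hy]
        obtain ⟨i, hi⟩ := hφ2 p.1 q.1
        rw [Finset.mem_inter] at hi
        exact ⟨i, Finset.mem_inter.2 ⟨Finset.mem_union_right _ hi.1,
          Finset.mem_union_right _ hi.2⟩⟩
    · exact hr x p
    · rw [Finset.inter_comm]; exact hr y q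
    · change (Jᶜ ∩ Jᶜ).Nonempty
      rw [Finset.inter_self]; exact ⟨i0, hi0⟩
  have hdeg : ∀ i, (Finset.univ.filter (fun z => i ∈ T z)).card ≤ t * m * k := by
    intro i
    by_cases hiJ : i ∈ J
    · have hsub : (Finset.univ.filter (fun z => i ∈ T z)) ⊆
          (B i ×ˢ (Finset.univ : Finset (Fin t × Fin m))).image Sum.inl := by
        rintro (⟨y, p⟩ | u) hz
        · have hz' := (Finset.mem_filter.1 hz).2
          refine Finset.mem_image.2 ⟨(y, p), ?_, rfl⟩
          rw [Finset.mem_product]
          refine ⟨?_, Finset.mem_univ _⟩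
          by_cases h : y ∈ X
          · rw [hTX y p h, Finset.mem_insert] at hz'
            rcases hz' with hz' | hz'
            · exfalso
              have := hψ1 (⟨y, h⟩, p)
              rw [← hz', Finset.mem_compl] at this
              exact this hiJ
            · exact (hT0 y i).1 hz'
          · rw [hTn y p h, Finset.mem_union] at hz'
            rcases hz' with hz' | hz'
            · exact (hT0 y i).1 (Finset.mem_inter.1 hz').1
            · exfalso
              exact (Finset.mem_compl.1 (hφ1 _ hz')) hiJ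
        · exfalso
          have hz' := (Finset.mem_filter.1 hz).2
          have hz'' : i ∈ Jᶜ := hz'
          exact (Finset.mem_compl.1 hz'') hiJ
      refine (Finset.card_le_card hsub).trans (Finset.card_image_le.trans ?_)
      rw [Finset.card_product, hB.1 i, Finset.card_univ, Fintype.card_prod, Fintype.card_fin,
        Fintype.card_fin]
      apply le_of_eq; ring
    · have hiJc : i ∈ Jᶜ := Finset.mem_compl.2 hiJ
      have hsub : (Finset.univ.filter (fun z => i ∈ T z)) ⊆
          ((Finset.univ.filter (fun z : {x // x ∈ X} × (Fin t × Fin m) => ψ z = i)).image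
            (fun z => (Sum.inl (z.1.1, z.2) : (Fin v × (Fin t × Fin m)) ⊕ Unit))) ∪
          ((Xᶜ ×ˢ ((Finset.univ.filter (fun a => i ∈ φ a)) ×ˢ
            (Finset.univ : Finset (Fin m)))).image Sum.inl) ∪ {Sum.inr ()} := by
        rintro (⟨y, p⟩ | u) hz
        · have hz' := (Finset.mem_filter.1 hz).2
          rw [Finset.mem_union, Finset.mem_union]
          left
          by_cases h : y ∈ X
          · left
            rw [hTX y p h, Finset.mem_insert] at hz'
            rcases hz' with hz' | hz'
            · exact Finset.mem_image.2 ⟨(⟨y, h⟩, p),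
                Finset.mem_filter.2 ⟨Finset.mem_univ _, hz'.symm⟩, rfl⟩
            · exact absurd (hT0J y h i hz') hiJ
          · right
            rw [hTn y p h, Finset.mem_union] at hz'
            rcases hz' with hz' | hz'
            · exact absurd (Finset.mem_inter.1 hz').2 hiJ
            · refine Finset.mem_image.2 ⟨(y, p), ?_, rfl⟩
              rw [Finset.mem_product, Finset.mem_product]
              exact ⟨Finset.mem_compl.2 h, Finset.mem_filter.2 ⟨Finset.mem_univ _, hz'⟩,
                Finset.mem_univ _⟩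
        · rw [Finset.mem_union]
          right
          simp
      refine (Finset.card_le_card hsub).trans ?_
      refine (Finset.card_union_le _ _).trans ?_
      have h1 := Finset.card_union_le
        ((Finset.univ.filter (fun z : {x // x ∈ X} × (Fin t × Fin m) => ψ z = i)).image
            (fun z => (Sum.inl (z.1.1, z.2) : (Fin v × (Fin t × Fin m)) ⊕ Unit)))
          ((Xᶜ ×ˢ ((Finset.univ.filter (fun a => i ∈ φ a)) ×ˢ
            (Finset.univ : Finset (Fin m)))).image Sum.inl)
      have h2 : ((Finset.univ.filter (fun z : {x // x ∈ X} × (Fin t × Fin m) => ψ z = i)).image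
            (fun z => (Sum.inl (z.1.1, z.2) : (Fin v × (Fin t × Fin m)) ⊕ Unit))).card ≤ c i :=
        Finset.card_image_le.trans (hψ2 i hiJc)
      have h3 : ((Xᶜ ×ˢ ((Finset.univ.filter (fun a => i ∈ φ a)) ×ˢ
            (Finset.univ : Finset (Fin m)))).image
              (Sum.inl : _ → (Fin v × (Fin t × Fin m)) ⊕ Unit)).card ≤ s * m * l i := by
        refine Finset.card_image_le.trans ?_
        rw [Finset.card_product, Finset.card_product, Finset.card_compl, Fintype.card_fin,
          Finset.card_univ, Fintype.card_fin]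
        have : v - X.card = s := by omega
        rw [this]
        apply le_of_eq
        simp only [l]
        ring
      have h4 := hl i
      have h5 : c i = t * m * k - 1 - s * m * l i := rfl
      rw [Finset.card_singleton]
      omega
  obtain ⟨n', hn', hval⟩ := P_of_types_le T (t * m * k) hint hdeg (by
    rw [Fintype.card_sum, Fintype.card_prod, Fintype.card_prod, Fintype.card_fin,
      Fintype.card_fin, Fintype.card_fin, Fintype.card_unit]
    have : k ≤ v := by omega
    have := Nat.mul_le_mul_left (t * m) this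
    calc t * m * k ≤ t * m * v := this
      _ = v * (t * m) := by ring
      _ ≤ _ := Nat.le_succ _)
  refine ⟨t * m, n', by positivity, hn', ?_⟩
  rw [hval, Fintype.card_sum, Fintype.card_prod, Fintype.card_prod, Fintype.card_fin,
      Fintype.card_fin, Fintype.card_fin, Fintype.card_unit]
  have : t * m * v = v * (t * m) := by ring
  omega

end Pool.Agent.V1162.MM
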