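import Pool.Agent.V1162.MM.Core

set_option autoImplicit false

namespace Pool.Agent.V1162.MM

variable {d : ℕ}

/-- type counts of an intersecting family with all degrees `k` -/
def P (n : Finset (Fin d) → ℕ) (k : ℕ) : Prop :=
  (∀ S T, n S ≠ 0 → n T ≠ 0 → (S ∩ T).Nonempty) ∧ ∀ i, ∑ S, (if i ∈ S then n S else 0) = k

def val (n : Finset (Fin d) → ℕ) : ℕ := ∑ S, n S

lemma P_sub {n n' : Finset (Fin d) → ℕ} {k k' : ℕ} (h : P n k) (h' : P n' k') (hle : n' ≤ n) :
    P (n - n') (k - k') := by
  refine ⟨fun S T hS hT => h.1 S T ?_ ?_, fun i => ?_⟩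
  · intro h0; apply hS; simp [h0]
  · intro h0; apply hT; simp [h0]
  · have h1 : ∑ S, (if i ∈ S then (n - n') S else 0) + ∑ S, (if i ∈ S then n' S else 0)
        = ∑ S, (if i ∈ S then n S else 0) := by
      rw [← Finset.sum_add_distrib]
      apply Finset.sum_congr rfl
      intro S _
      have : n' S ≤ n S := hle S
      split_ifs
      · simp only [Pi.sub_apply]; omega
      · rfl
    rw [h.2 i, h'.2 i] at h1
    omega

lemma P_pos {n : Finset (Fin d) → ℕ} {k : ℕ} (h : P n k) (hn : n ≠ 0) : 0 < k := by
  obtain ⟨S, hS⟩ := Function.ne_iff.1 hn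
  obtain ⟨i, hi⟩ := h.1 S S hS hS
  rw [← h.2 i]
  have hi' : i ∈ S := (Finset.mem_inter.1 hi).1
  have : n S ≤ ∑ S, (if i ∈ S then n S else 0) := by
    have := Finset.single_le_sum (f := fun S => if i ∈ S then n S else 0)
      (fun _ _ => Nat.zero_le _) (Finset.mem_univ S)
    simpa [hi'] using this
  have h0 : 0 < n S := Nat.pos_of_ne_zero hS
  omega

lemma val_sub {n n' : Finset (Fin d) → ℕ} (hle : n' ≤ n) : val (n - n') + val n' = val n := by
  unfold val
  rw [← Finset.sum_add_distrib]
  apply Finset.sum_congr rfl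
  intro S _
  have : n' S ≤ n S := hle S
  simp only [Pi.sub_apply]; omega

lemma val_pos {n : Finset (Fin d) → ℕ} (hn : n ≠ 0) : 0 < val n := by
  obtain ⟨S, hS⟩ := Function.ne_iff.1 hn
  have := Finset.single_le_sum (f := n) (fun _ _ => Nat.zero_le _) (Finset.mem_univ S)
  have h0 : 0 < n S := Nat.pos_of_ne_zero hS
  unfold val; omega

/-- the largest value of `v / k` is attained -/
lemma attained (hd : 0 < d) : ∃ (n : Finset (Fin d) → ℕ) (k : ℕ), 0 < k ∧ P n k ∧ n ≠ 0 ∧
    ∀ (n' : Finset (Fin d) → ℕ) (k' : ℕ), P n' k' → val n' * k ≤ val n * k' := by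
  classical
  let i0 : Fin d := ⟨0, hd⟩
  let K : (Finset (Fin d) → ℕ) → ℕ := fun n => ∑ S, (if i0 ∈ S then n S else 0)
  let M : Set (Finset (Fin d) → ℕ) := {n | n ≠ 0 ∧ ∃ k, P n k}
  have hK : ∀ n k, P n k → K n = k := fun n k h => h.2 i0
  let Mn : Set (Finset (Fin d) → ℕ) := {n | n ∈ M ∧ ∀ n' ∈ M, n' ≤ n → n' = n}
  have hfin : Mn.Finite := by
    have h1 : IsAntichain (· ≤ ·) Mn := by
      intro a ha b hb hab hle
      exact hab (hb.2 a ha.1 hle)
    exact h1.finite_of_partiallyWellOrderedOn (Set.isPWO_of_wellQuasiOrderedLE Mn)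
  have hMne : M.Nonempty := by
    refine ⟨Pi.single Finset.univ 1, ?_, 1, ?_, ?_⟩
    · intro h
      have := congrFun h Finset.univ
      simp at this
    · intro S T hS hT
      have hS' : S = Finset.univ := by
        by_contra hne; exact hS (Pi.single_eq_of_ne hne 1)
      have hT' : T = Finset.univ := by
        by_contra hne; exact hT (Pi.single_eq_of_ne hne 1)
      rw [hS', hT']
      exact ⟨i0, by simp⟩
    · intro i
      rw [Finset.sum_eq_single Finset.univ]
      · simp
      · intro S _ hS
        simp [Pi.single_eq_of_ne hS]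
      · simp
  have hne : Mn.Nonempty := by
    obtain ⟨n, hn, hmin⟩ : ∃ n ∈ M, ∀ n' ∈ M, val n ≤ val n' := by
      have h1 : (val '' M).Nonempty := hMne.image _
      obtain ⟨n, hn, hv⟩ := Nat.sInf_mem h1
      exact ⟨n, hn, fun n' hn' => hv ▸ Nat.sInf_le (Set.mem_image_of_mem _ hn')⟩
    refine ⟨n, hn, fun n' hn' hle => ?_⟩
    by_contra hne
    have h1 := val_sub hle
    have h2 : n - n' ≠ 0 := by
      intro h0
      apply hne
      apply le_antisymm hle
      intro S
      have : n S - n' S = 0 := congrFun h0 S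
      change n S ≤ n' S
      omega
    have h3 := val_pos h2
    have := hmin n' hn'
    omega
  obtain ⟨n, hn, hmax⟩ := Set.exists_max_image Mn (fun n => (val n : ℚ) / K n) hfin hne
  obtain ⟨⟨hn0, k, hk⟩, hnm⟩ := hn
  have hkp : 0 < k := P_pos hk hn0
  refine ⟨n, k, hkp, hk, hn0, ?_⟩
  have key : ∀ N : ℕ, ∀ (n' : Finset (Fin d) → ℕ) (k' : ℕ), P n' k' → val n' = N → val n' * k ≤ val n * k' := by
    intro N
    induction N using Nat.strong_induction_on with
    | _ N ih =>
      intro n' k' h' hN
      by_cases h0 : n' = 0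
      · subst h0
        simp [val]
      have hk' : 0 < k' := P_pos h' h0
      by_cases hm : n' ∈ Mn
      · have h1 := hmax n' hm
        simp only [hK n' k' h', hK n k hk] at h1
        rw [div_le_div_iff₀ (by exact_mod_cast hk') (by exact_mod_cast hkp)] at h1
        exact_mod_cast h1
      · have hM' : n' ∈ M := ⟨h0, k', h'⟩
        have : ∃ n1 ∈ M, n1 ≤ n' ∧ n1 ≠ n' := by
          by_contra hc
          push Not at hc
          exact hm ⟨hM', hc⟩
        obtain ⟨n1, ⟨hn10, k1, hk1⟩, hle, hne1⟩ := this
        have h2 := P_sub h' hk1 hle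
        have h3 := val_sub hle
        have h4 : n' - n1 ≠ 0 := by
          intro hz
          apply hne1
          apply le_antisymm hle
          intro S
          have : n' S - n1 S = 0 := congrFun hz S
          change n' S ≤ n1 S
          omega
        have h5 := val_pos h4
        have h6 := val_pos hn10
        have e1 := ih (val n1) (by omega) n1 k1 hk1 rfl
        have e2 := ih (val (n' - n1)) (by omega) _ _ h2 rfl
        have e3 := P_pos h2 h4
        have e4 : k' = (k' - k1) + k1 := by omega
        rw [← h3, e4, add_mul, mul_add]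
        exact add_le_add e2 e1
  exact fun n' k' h' => key _ n' k' h' rfl

/-- counts of a type function -/
lemma P_of_types {α : Type} [Fintype α] (T : α → Finset (Fin d)) (k : ℕ)
    (h1 : ∀ x y, (T x ∩ T y).Nonempty)
    (h2 : ∀ i, (Finset.univ.filter (fun x => i ∈ T x)).card = k) :
    P (fun S => (Finset.univ.filter (fun x => T x = S)).card) k ∧
      val (fun S => (Finset.univ.filter (fun x => T x = S)).card) = Fintype.card α := by
  classical
  refine ⟨⟨?_, ?_⟩, ?_⟩
  · intro S S' hS hS'
    obtain ⟨x, hx⟩ := Finset.card_pos.1 (Nat.pos_of_ne_zero hS)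
    obtain ⟨y, hy⟩ := Finset.card_pos.1 (Nat.pos_of_ne_zero hS')
    have hx' := (Finset.mem_filter.1 hx).2
    have hy' := (Finset.mem_filter.1 hy).2
    rw [← hx', ← hy']
    exact h1 x y
  · intro i
    rw [← h2 i]
    rw [Finset.card_eq_sum_card_fiberwise (f := T) (t := Finset.univ) (by intro x _; simp)]
    apply Finset.sum_congr rfl
    intro S _
    split_ifs with hi
    · have : (Finset.univ.filter (fun x => T x = S)) =
          (Finset.univ.filter (fun x => i ∈ T x)).filter (fun x => T x = S) := by
        ext x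
        simp only [Finset.mem_filter, Finset.mem_univ, true_and]
        constructor
        · intro h; exact ⟨h ▸ hi, h⟩
        · intro h; exact h.2
      exact congrArg Finset.card this
    · symm
      rw [Finset.card_eq_zero, Finset.eq_empty_iff_forall_notMem]
      intro x hx
      simp only [Finset.mem_filter, Finset.mem_univ, true_and] at hx
      exact hi (hx.2 ▸ hx.1)
  · unfold val
    rw [← Finset.card_univ, Finset.card_eq_sum_card_fiberwise (f := T) (t := Finset.univ)
      (by intro x _; simp)]

/-- completion of blocks with at most `k` elements -/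
lemma P_of_types_le {α : Type} [Fintype α] [DecidableEq α] (T : α → Finset (Fin d)) (k : ℕ)
    (h1 : ∀ x y, (T x ∩ T y).Nonempty)
    (h2 : ∀ i, (Finset.univ.filter (fun x => i ∈ T x)).card ≤ k) (h3 : k ≤ Fintype.card α) :
    ∃ n, P (d := d) n k ∧ val n = Fintype.card α := by
  classical
  have h4 : ∀ i, ∃ C : Finset α, Finset.univ.filter (fun x => i ∈ T x) ⊆ C ∧ C.card = k :=
    fun i => Finset.exists_superset_card_eq (h2 i) h3
  choose C hC hCk using h4
  have := P_of_types (fun x => Finset.univ.filter (fun i => x ∈ C i)) k (by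
    intro x y
    obtain ⟨i, hi⟩ := h1 x y
    rw [Finset.mem_inter] at hi
    refine ⟨i, ?_⟩
    rw [Finset.mem_inter]
    constructor
    · exact Finset.mem_filter.2 ⟨Finset.mem_univ _, hC i (Finset.mem_filter.2 ⟨Finset.mem_univ _, hi.1⟩)⟩
    · exact Finset.mem_filter.2 ⟨Finset.mem_univ _, hC i (Finset.mem_filter.2 ⟨Finset.mem_univ _, hi.2⟩)⟩)
    (by
      intro i
      have : (Finset.univ.filter (fun x => i ∈ Finset.univ.filter (fun i => x ∈ C i))) = C i := by
        ext x
        simp
      rw [this, hCk i])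
  exact ⟨_, this⟩

/-- a design with the given counts, doubled -/
lemma design_of_P {n : Finset (Fin d) → ℕ} {k : ℕ} (h : P n k) :
    ∃ B : Fin d → Finset (Fin (2 * val n)), IsCovering (2 * k) B := by
  classical
  let α := Σ S : Finset (Fin d), Fin (n S) × Fin 2
  have hc : Fintype.card α = 2 * val n := by
    simp only [α, Fintype.card_sigma, Fintype.card_prod, Fintype.card_fin]
    rw [← Finset.sum_mul, mul_comm]
    rfl
  refine transport (α := α) (ι := Fin d) (2 * k) d (2 * val n) (by simp) hc
    (fun i => Finset.univ.filter (fun x => i ∈ x.1)) ?_ ?_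
  · intro i
    have : (Finset.univ.filter (fun x : α => i ∈ x.1)) =
        (Finset.univ.filter (fun S : Finset (Fin d) => i ∈ S)).sigma (fun _ => Finset.univ) := by
      ext ⟨S, x⟩
      rw [Finset.mem_sigma]
      simp
    rw [this, Finset.card_sigma, ← h.2 i, Finset.mul_sum, Finset.sum_filter]
    apply Finset.sum_congr rfl
    intro S _
    split_ifs
    · simp [mul_comm]
    · rfl
  · intro x y _
    have hx : n x.1 ≠ 0 := by
      have := x.2.1.2
      omega
    have hy : n y.1 ≠ 0 := by
      have := y.2.1.2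
      omega
    obtain ⟨i, hi⟩ := h.1 x.1 y.1 hx hy
    rw [Finset.mem_inter] at hi
    exact ⟨i, by simp [hi.1], by simp [hi.2]⟩

end Pool.Agent.V1162.MM
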